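import Pool.Agent.Q283.FT.Stm3
import Pool.Agent.Q96.LQ.SU

/-! # Project FT (helper283), job GDS: almost all places are good -/

set_option autoImplicit false

namespace Pool.Agent.Q151.FT

open NumberField IsDedekindDomain Finset
open Pool.Agent.Q283.LQ (Sm)
open Pool.Agent.Q7.LK
open Pool.Agent.Q96.LQ (sm_of_le fin_ne_one)
open Pool.Agent.Q283.FT

theorem df_ne {F : Type} [Field F] {e : Fin 3 → F} (he : Rt e) (l : Fin 3) : df e l ≠ 0 := by
  have h : ∀ i j : Fin 3, i ≠ j → e i - e j ≠ 0 := fun i j hij h0 =>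
    hij (he.inj (sub_eq_zero.1 h0))
  unfold df
  split_ifs
  · exact h 1 2 (by decide)
  · exact h 0 2 (by decide)
  · exact h 0 1 (by decide)

/-- the places outside a finite set are not small for large `y` -/
theorem sm_fin {F : Type} [Field F] [NumberField F] {B : Set (HeightOneSpectrum (𝓞 F))} (hB : B.Finite) :
    ∃ y0 : ℕ, ∀ y, y0 ≤ y → ∀ v ∈ B, Sm y v := by
  classical
  refine ⟨∑ v ∈ hB.toFinset, Ideal.absNorm v.asIdeal, fun y hy v hv => ?_⟩
  refine sm_of_le v.asIdeal v.ne_bot y ?_ v le_rfl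
  exact (Finset.single_le_sum (f := fun v : HeightOneSpectrum (𝓞 F) => Ideal.absNorm v.asIdeal)
    (fun _ _ => Nat.zero_le _) (hB.mem_toFinset.2 hv)).trans hy

theorem gds : S_GDS := by
  intro F _ _ e he
  have h1 : ∀ i : Fin 3, {v : HeightOneSpectrum (𝓞 F) | ¬ v.valuation F (e i) ≤ 1}.Finite := by
    intro i
    by_cases hi : e i = 0
    · refine Set.finite_empty.subset ?_
      intro v hv
      apply hv
      rw [hi, map_zero]
      exact zero_le_one
    · refine (fin_ne_one (e i) hi).subset ?_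
      intro v hv hv1
      exact hv hv1.le
  have h2 : ∀ l : Fin 3, {v : HeightOneSpectrum (𝓞 F) | ¬ v.valuation F (df e l) = 1}.Finite :=
    fun l => fin_ne_one (df e l) (df_ne he l)
  obtain ⟨y1, hy1⟩ := sm_fin ((Set.finite_iUnion h1).union (Set.finite_iUnion h2))
  refine ⟨max y1 2, fun y hy v hv => ⟨?_, ?_, ?_⟩⟩
  · intro h
    exact hv ⟨2, Nat.prime_two, (le_max_right _ _).trans hy, h⟩
  · intro i
    by_contra h
    exact hv (hy1 y ((le_max_left _ _).trans hy) v (Or.inl (Set.mem_iUnion.2 ⟨i, h⟩)))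
  · intro l
    by_contra h
    exact hv (hy1 y ((le_max_left _ _).trans hy) v (Or.inr (Set.mem_iUnion.2 ⟨l, h⟩)))

end Pool.Agent.Q151.FT
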