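import Pool.Agent.Q283.FT.Stm3

/-! # Project FT (helper283), job KUC: points of trivial class are divisible by `2` -/

set_option autoImplicit false

namespace Pool.Agent.Q151.FT

open Finset WeierstrassCurve
open Pool.Agent.TH841.SH (IsR)
open Pool.Agent.TH841.SH.D (Pt)
open Pool.Agent.Q283.FT

/-- the curve `crv e` over `L` has the roots `e j` -/
theorem crv_isR {F : Type} [Field F] (e : Fin 3 → F) (he : Rt e) (L : Type) [Field L] [Algebra F L] :
    IsR ((crv e).baseChange L) (algebraMap F L (e 0)) (algebraMap F L (e 1)) (algebraMap F L (e 2)) := by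
  have hs : algebraMap F L (e 0) + algebraMap F L (e 1) + algebraMap F L (e 2) = 0 := by
    rw [← map_add, ← map_add, he.sum, map_zero]
  refine ⟨?_, ?_, ?_, ?_, ?_⟩
  · change algebraMap F L 0 = 0
    exact map_zero _
  · change algebraMap F L 0 = _
    rw [hs, neg_zero, map_zero]
  · change algebraMap F L 0 = 0
    exact map_zero _
  · change algebraMap F L (e 0 * e 1 + e 0 * e 2 + e 1 * e 2) = _
    simp only [map_add, map_mul]
  · change algebraMap F L (-(e 0 * e 1 * e 2)) = _
    simp only [map_neg, map_mul]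

theorem sq_of_mul {L : Type} [Field L] {a c : L} (ha : a ≠ 0) (h1 : IsSquare a) (h2 : IsSquare (a * c)) :
    ∃ s, c = s ^ 2 := by
  obtain ⟨r, rfl⟩ := h1
  obtain ⟨q, hq⟩ := h2
  have hr : r ≠ 0 := by
    rintro rfl
    exact ha (mul_zero _)
  refine ⟨q / r, ?_⟩
  field_simp
  linear_combination hq

theorem kuc : S_KUC := by
  intro F _ _ i hi e he L _ _ P a b hC ha hb
  have hinj : Function.Injective (algebraMap F L) := (algebraMap F L).injective
  have : CharZero L := charZero_of_injective_algebraMap hinj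
  have h2 : (2 : L) ≠ 0 := two_ne_zero
  have h01 : algebraMap F L (e 0) ≠ algebraMap F L (e 1) := fun h => by
    have := he.inj (hinj h)
    exact absurd this (by decide)
  have h02 : algebraMap F L (e 0) ≠ algebraMap F L (e 2) := fun h => by
    have := he.inj (hinj h)
    exact absurd this (by decide)
  have h12 : algebraMap F L (e 1) ≠ algebraMap F L (e 2) := fun h => by
    have := he.inj (hinj h)
    exact absurd this (by decide)
  have hR := crv_isR e he L
  obtain ⟨ha0, hb0, hC⟩ := hC
  rcases hC with ⟨hP, -, -⟩ | ⟨x, y, hn, hP, hx0, hx1⟩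
  · exact ⟨0, by rw [hP, add_zero]⟩
  have hd0 : df e 0 = e 1 - e 2 := rfl
  have hd1 : df e 1 = e 0 - e 2 := rfl
  have hd2 : df e 2 = e 0 - e 1 := rfl
  set E0 := algebraMap F L (e 0) with hE0
  set E1 := algebraMap F L (e 1) with hE1
  set E2 := algebraMap F L (e 2) with hE2
  set I := algebraMap F L i with hI
  have hI2 : I ^ 2 = -1 := by
    rw [hI, ← map_pow, hi, map_neg, map_one]
  have hI0 : I ≠ 0 := by
    rintro h
    rw [h] at hI2
    norm_num at hI2
  have hey : y ^ 2 = (x - E0) * (x - E1) * (x - E2) := (hR.eqn x y).1 hn.1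
  have key : ∃ s t w : L, x - E0 = s ^ 2 ∧ x - E1 = t ^ 2 ∧ x - E2 = w ^ 2 ∧ y = s * t * w := by
    rcases hx0 with ⟨hx0, hs0⟩ | ⟨hx0, hs0⟩
    · obtain ⟨s, hs⟩ := sq_of_mul ha0 ha hs0
      have hs' : s ≠ 0 := by
        rintro rfl
        apply hx0
        linear_combination hs
      rcases hx1 with ⟨hx1, hs1⟩ | ⟨hx1, hs1⟩
      · obtain ⟨t, ht⟩ := sq_of_mul hb0 hb hs1
        have ht' : t ≠ 0 := by
          rintro rfl
          apply hx1
          linear_combination ht
        refine ⟨s, t, y / (s * t), hs, ht, ?_, ?_⟩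
        · rw [div_pow, eq_div_iff (pow_ne_zero 2 (mul_ne_zero hs' ht')), hey, hs, ht]
          ring
        · field_simp
      · obtain ⟨r, hr⟩ := sq_of_mul hb0 hb hs1
        rw [map_mul, hd0, hd2, map_sub, map_sub, ← hE0, ← hE1, ← hE2] at hr
        have hy : y = 0 := by
          have : y ^ 2 = 0 := by
            rw [hey, hx1]
            ring
          exact pow_eq_zero_iff (two_ne_zero) |>.1 this
        refine ⟨s, 0, r / (I * s), hs, ?_, ?_, ?_⟩
        · rw [hx1]
          ring
        · rw [div_pow, eq_div_iff (pow_ne_zero 2 (mul_ne_zero hI0 hs')), mul_pow, hI2, ← hs, hx1, ← hr]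
          ring
        · rw [hy]
          ring
    · have hx1' : x ≠ E1 := by
        rw [hx0]
        exact h01
      rcases hx1 with ⟨hx1, hs1⟩ | ⟨hx1, hs1⟩
      · obtain ⟨t, ht⟩ := sq_of_mul hb0 hb hs1
        obtain ⟨r, hr⟩ := sq_of_mul ha0 ha hs0
        rw [map_mul, hd1, hd2, map_sub, map_sub, ← hE0, ← hE1, ← hE2] at hr
        have ht' : t ≠ 0 := by
          rintro rfl
          apply hx1
          linear_combination ht
        have hy : y = 0 := by
          have : y ^ 2 = 0 := by
            rw [hey, hx0]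
            ring
          exact pow_eq_zero_iff (two_ne_zero) |>.1 this
        refine ⟨0, t, r / t, ?_, ht, ?_, ?_⟩
        · rw [hx0]
          ring
        · rw [div_pow, eq_div_iff (pow_ne_zero 2 ht'), ← ht, hx0, ← hr]
        · rw [hy]
          ring
      · exact absurd hx1 hx1'
  obtain ⟨s, t, w, hs, ht, hw, hy⟩ := key
  let _ : DecidableEq L := Classical.decEq L
  obtain ⟨Q, hQ⟩ := hR.halve h2 h01 h02 h12 hn hs ht hw hy
  exact ⟨Q, hP.trans hQ⟩

end Pool.Agent.Q151.FT
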